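import Pool.Agent.Mg.F3924c3.G5eab79

/- A basis and the dimensions of the spaces of finite multiple zeta values over `F[θ]`. -/

open Pool.Agent.MP_3924c3_nt PowerSeries

namespace Pool.Agent.Results.MP_3924c3_nt.FunctionField

theorem result (F : Type*) [Field F] [Fintype F] (q : ℕ) (hq : Fintype.card F = q) :
    PowerSeries.mk (fun w => (dimZ F w : ℤ)) * (1 - ∑ i ∈ Finset.Icc 1 q, X ^ i) =
      1 - X ^ (q - 1) ∧
    LinearIndepOn (RatFunc F) (fmzv F) (BS q) ∧
    ∀ w, ZA F w = spanZ F {s ∈ BS q | s.sum = w} := by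
  subst hq
  exact ⟨dim_series F, indep_BS F, ZA_eq_BS⟩

end Pool.Agent.Results.MP_3924c3_nt.FunctionField
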