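import Pool.Agent.MP_3924c3_nt.K7.Fin
import Pool.Agent.MP_3924c3_nt.FZ.Pow

/- A non-zero finite multiple zeta value in every weight divisible by 3, 5 or 7. -/

namespace Pool.Agent.Results.MP_3924c3_nt.NonzeroWeights

theorem result (w : ℕ) (hw : 3 ∣ w ∨ 5 ∣ w ∨ 7 ∣ w) :
    ∃ k : Composition w, Set.Infinite {p : ℕ | p.Prime ∧
      (∑ m : Fin k.length → Fin p,
        if (∀ i j : Fin k.length, i < j → m j < m i) ∧ (∀ i, 0 < (m i : ℕ))
        then ∏ i : Fin k.length, (((m i : ℕ) : ZMod p)⁻¹) ^ k.blocksFun i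
        else 0) ≠ 0} :=
  Pool.Agent.MP_3924c3_nt.FZ.nz_all Pool.Agent.MP_3924c3_nt.BK.inf3
    Pool.Agent.MP_3924c3_nt.BK.inf5 Pool.Agent.MP_3924c3_nt.BK.K7.inf7 w hw

end Pool.Agent.Results.MP_3924c3_nt.NonzeroWeights
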